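import Pool.Agent.Helper62.BW.Stm

/-!
# W_Irr: the two forms of the irreducibility
-/

set_option autoImplicit false
set_option linter.unusedSectionVars false

open Polynomial Matrix Finset

namespace Pool.Agent.Helper90.BW

open Pool.Agent.Helper62.BM Pool.Agent.Helper62.BW

section pol

variable (E : Type) [Field E] (n : ℕ)

/-- the polynomial with given coefficients -/
noncomputable def pol : (Fin n → E) →ₗ[E] E[X] :=
  (degreeLT E n).subtype ∘ₗ (degreeLTEquiv E n).symm.toLinearMap

theorem pol_coeff (u : Fin n → E) (i : Fin n) : (pol E n u).coeff i = u i := by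
  have h := congrFun ((degreeLTEquiv E n).apply_symm_apply u) i
  exact h

theorem pol_mem (u : Fin n → E) : pol E n u ∈ degreeLT E n := ((degreeLTEquiv E n).symm u).2

theorem pol_coeff_ge (u : Fin n → E) {m : ℕ} (h : n ≤ m) : (pol E n u).coeff m = 0 := by
  have h1 := mem_degreeLT.1 (pol_mem E n u)
  exact coeff_eq_zero_of_degree_lt (h1.trans_le (by exact_mod_cast h))

theorem pol_eq (u : Fin n → E) : pol E n u = ∑ l, Polynomial.C (u l) * X ^ (l : ℕ) := by
  have h : pol E n u = ∑ l : Fin n, monomial (l : ℕ) (u l) := rfl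
  rw [h]
  exact Finset.sum_congr rfl fun l _ => (C_mul_X_pow_eq_monomial).symm

theorem pol_surj {q : E[X]} (h : q ∈ degreeLT E n) : ∃ u, pol E n u = q := by
  refine ⟨degreeLTEquiv E n ⟨q, h⟩, ?_⟩
  show (((degreeLTEquiv E n).symm (degreeLTEquiv E n ⟨q, h⟩) : degreeLT E n) : E[X]) = q
  rw [LinearEquiv.symm_apply_apply]

theorem pol_inj : Function.Injective (pol E n) := by
  intro u v h
  funext i
  rw [← pol_coeff E n u, ← pol_coeff E n v, h]

end pol

theorem coeff_dE {E : Type} [Field E] (δ : Der E) (u : E[X]) (i : ℕ) :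
    (dE δ u).coeff i = δ (u.coeff i) := by
  unfold dE
  rw [Polynomial.sum_def, finsetSum_coeff]
  simp only [coeff_monomial, Finset.sum_ite_eq']
  split_ifs with h
  · rfl
  · rw [notMem_support_iff.1 h, map_zero]

/-- **W17.** -/
theorem w_irr : W_Irr := by
  intro k _ _ g hg F D P S hF hOk hI E _ _ _ δ hδ W hW
  obtain ⟨⟨hFm, hFd, hFs⟩, hR, hDM, -⟩ := hF
  have hw : D.w.eval D.c ≠ 0 := by
    obtain ⟨-, -, -, -, -, -, o3, -⟩ := hOk
    exact o3
  have hw0 : D.w ≠ 0 := by
    intro h
    rw [h, eval_zero] at hw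
    exact hw rfl
  have hW0 : D.W ≠ 0 := mul_ne_zero (X_sub_C_ne_zero _) hw0
  set θ : k[X] →+* E := (algebraMap (KX k) E).comp (ι k) with hθ
  have hθi : Function.Injective θ :=
    (algebraMap (KX k) E).injective.comp (IsFractionRing.injective k[X] (KX k))
  have hθW : θ D.W ≠ 0 := (map_ne_zero_iff θ hθi).2 hW0
  have h2 : (2 : E) ≠ 0 := by
    have : CharZero E := charZero_of_injective_ringHom (algebraMap (KX k) E).injective
    exact two_ne_zero
  set FE : E[X] := F.map θ with hFE
  have hFEm : FE.Monic := hFm.map _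
  have hFEd : FE.natDegree = 2 * g + 1 := by
    rw [hFE, hFm.natDegree_map, hFd]
  have hsep : FE.Separable := by
    have h1 : (F.map (ι k)).Separable := hFs
    have h3 : FE = (F.map (ι k)).map (algebraMap (KX k) E) := by
      rw [hFE, hθ, Polynomial.map_map]
    rw [h3]
    exact h1.map
  -- the relation
  have hrel : ∀ l : Fin (2 * g), 2 * ((P l).map θ * FE + (S l).map θ * derivative FE) =
      Polynomial.C (θ D.W) * X ^ (l : ℕ) * (dt F).map θ := by
    intro l
    have h3 := congrArg (fun q => Polynomial.map θ q) (hR l).2.2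
    simp only [Polynomial.map_mul, Polynomial.map_add, Polynomial.map_pow, Polynomial.map_X,
      Polynomial.map_C, Polynomial.map_ofNat] at h3
    rw [hFE, derivative_map]
    exact h3
  set W' : Submodule E E[X] := W.map (pol E (2 * g)) with hW'
  have hW'le : W' ≤ degreeLT E (2 * g) := by
    rintro _ ⟨u, -, rfl⟩
    exact pol_mem _ _ _
  have hstab : ∀ u ∈ W', ∀ a b : E[X], a.natDegree < 2 * g → b.natDegree ≤ 2 * g →
      a * F.map ((algebraMap (KX k) E).comp (ι k)) +
        b * derivative (F.map ((algebraMap (KX k) E).comp (ι k))) =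
        u * (dt F).map ((algebraMap (KX k) E).comp (ι k)) →
      dE δ u - Polynomial.C 2⁻¹ * a - derivative b ∈ W' := by
    rintro _ ⟨u, hu, rfl⟩ a b ha hb hab
    set a0 : E[X] := ∑ l, Polynomial.C (u l * (θ D.W)⁻¹) * (2 * (P l).map θ) with ha0
    set b0 : E[X] := ∑ l, Polynomial.C (u l * (θ D.W)⁻¹) * (2 * (S l).map θ) with hb0
    have dC : ∀ (c : E) (q : E[X]) (N : ℕ), q.natDegree ≤ N →
        (Polynomial.C c * (2 * q)).natDegree ≤ N := by
      intro c q N hq
      have e1 : Polynomial.C c * (2 * q) = Polynomial.C (c * 2) * q := by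
        rw [← mul_assoc, C_mul]
        rfl
      rw [e1]
      exact (natDegree_C_mul_le _ _).trans hq
    have da0 : a0.natDegree ≤ 2 * g - 1 := by
      refine natDegree_sum_le_of_forall_le _ _ fun l _ => dC _ _ _ ?_
      have := (hR l).1
      exact natDegree_map_le.trans (by omega)
    have db0 : b0.natDegree ≤ 2 * g := by
      refine natDegree_sum_le_of_forall_le _ _ fun l _ => dC _ _ _ ?_
      exact natDegree_map_le.trans (hR l).2.1
    have hab0 : a0 * FE + b0 * derivative FE = pol E (2 * g) u * (dt F).map θ := by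
      rw [ha0, hb0, Finset.sum_mul, Finset.sum_mul, ← Finset.sum_add_distrib, pol_eq,
        Finset.sum_mul]
      refine Finset.sum_congr rfl fun l _ => ?_
      have e1 : Polynomial.C (u l * (θ D.W)⁻¹) * (2 * (P l).map θ) * FE +
          Polynomial.C (u l * (θ D.W)⁻¹) * (2 * (S l).map θ) * derivative FE =
          Polynomial.C (u l * (θ D.W)⁻¹) *
            (2 * ((P l).map θ * FE + (S l).map θ * derivative FE)) := by ring
      rw [e1, hrel, ← mul_assoc, ← mul_assoc, ← C_mul, mul_assoc (u l), inv_mul_cancel₀ hθW,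
        mul_one]
    have hb1 : b - b0 = 0 := by
      by_contra hne
      have h3 : (a - a0) * FE + (b - b0) * derivative FE = 0 := by
        have : (a - a0) * FE + (b - b0) * derivative FE =
            (a * FE + b * derivative FE) - (a0 * FE + b0 * derivative FE) := by ring
        rw [this, hab0]
        exact sub_eq_zero.2 hab
      have h4 : FE ∣ (b - b0) * derivative FE := ⟨-(a - a0), by linear_combination h3⟩
      have h5 : FE ∣ b - b0 := IsCoprime.dvd_of_dvd_mul_right hsep h4
      have h6 := natDegree_le_of_dvd h5 hne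
      have h7 : (b - b0).natDegree ≤ 2 * g := (natDegree_sub_le _ _).trans (max_le hb db0)
      omega
    have hb2 : b = b0 := sub_eq_zero.1 hb1
    have ha2 : a = a0 := by
      have h3 : (a - a0) * FE = 0 := by
        have e1 : (a - a0) * FE = (a * FE + b * derivative FE) - (a0 * FE + b0 * derivative FE) := by
          rw [hb2]
          ring
        rw [e1, hab0]
        exact sub_eq_zero.2 hab
      exact sub_eq_zero.1 ((mul_eq_zero.1 h3).resolve_right hFEm.ne_zero)
    refine ⟨_, hW u hu, ?_⟩
    rw [ha2, hb2]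
    ext m
    rw [coeff_sub, coeff_sub, coeff_C_mul, coeff_dE, coeff_derivative]
    rcases lt_or_ge m (2 * g) with hm | hm
    · have e1 := pol_coeff E (2 * g) u ⟨m, hm⟩
      have e2 := pol_coeff E (2 * g) ((fun i => δ (u i)) +
        (D.B.map (algebraMap (KX k) E)) *ᵥ u) ⟨m, hm⟩
      simp only at e1 e2
      rw [e1, e2, Pi.add_apply, Matrix.mulVec, dotProduct, ha0, hb0, finsetSum_coeff,
        finsetSum_coeff, Finset.mul_sum, Finset.sum_mul, sub_sub, ← Finset.sum_add_distrib,
        sub_eq_add_neg, ← Finset.sum_neg_distrib]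
      congr 1
      refine Finset.sum_congr rfl fun l _ => ?_
      have c2 : ∀ (q : E[X]) (j : ℕ), (2 * q).coeff j = 2 * q.coeff j := by
        intro q j
        have : (2 : E[X]) * q = Polynomial.C 2 * q := rfl
        rw [this, coeff_C_mul]
      have c3 : ∀ (q : k[X][X]) (j : ℕ), (2 * q).coeff j = 2 * q.coeff j := by
        intro q j
        have : (2 : k[X][X]) * q = Polynomial.C 2 * q := rfl
        rw [this, coeff_C_mul]
      have e3 : algebraMap (KX k) E (D.B ⟨m, hm⟩ l) = θ (D.M ⟨m, hm⟩ l) * (θ D.W)⁻¹ := by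
        unfold Dat.B
        rw [Matrix.of_apply, map_mul, map_inv₀]
        rfl
      have e4 : D.M ⟨m, hm⟩ l = -((P l).coeff m + 2 * ((S l).coeff (m + 1) * ((m : k[X]) + 1))) := by
        rw [hDM, Mg, Matrix.of_apply, coeff_add, c3, coeff_derivative]
      rw [Matrix.map_apply, e3, e4, coeff_C_mul, coeff_C_mul, c2, c2, coeff_map, coeff_map,
        map_neg, map_add, map_mul, map_mul, map_add, map_natCast, map_one, map_ofNat]
      field_simp
    · have e1 := pol_coeff_ge E (2 * g) u hm
      have e2 := pol_coeff_ge E (2 * g) ((fun i => δ (u i)) +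
        (D.B.map (algebraMap (KX k) E)) *ᵥ u) hm
      rw [e1, e2, map_zero, coeff_eq_zero_of_natDegree_lt (p := a0) (by omega),
        coeff_eq_zero_of_natDegree_lt (p := b0) (by omega)]
      ring
  rcases hI E δ hδ W' hW'le hstab with h | h
  · left
    rw [eq_bot_iff]
    intro u hu
    have h1 : pol E (2 * g) u ∈ W' := ⟨u, hu, rfl⟩
    rw [h, Submodule.mem_bot] at h1
    rw [Submodule.mem_bot]
    exact pol_inj E (2 * g) (h1.trans (map_zero _).symm)
  · right
    rw [eq_top_iff]
    intro u _
    have h1 : pol E (2 * g) u ∈ W' := by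
      rw [h]
      exact pol_mem _ _ _
    obtain ⟨v, hv, hvu⟩ := h1
    rw [← pol_inj E (2 * g) hvu]
    exact hv

end Pool.Agent.Helper90.BW
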