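import Pool.Agent.Helper62.BW.Data

/-!
# W_Tr: transfer of `Strong` along extensions of the constants
-/

set_option autoImplicit false
set_option linter.unusedSectionVars false

open Polynomial Matrix Finset

namespace Pool.Agent.Helper90.BW

open Pool.Agent.Helper62.BM Pool.Agent.Helper62.BW

section maps

variable {K L : Type} [Field K] [Field L] (φ : K →+* L) {g : ℕ}

theorem tay_map (c : K) (q : K[X]) : PowerSeries.map φ (tay c q) = tay (φ c) (q.map φ) := by
  unfold tay
  rw [coe_eval₂RingHom, coe_eval₂RingHom, hom_eval₂, eval₂_map, map_add, PowerSeries.map_X,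
    PowerSeries.map_C]
  congr 1
  apply RingHom.ext
  intro a
  rw [RingHom.comp_apply, PowerSeries.map_C]
  rfl

theorem tay_lin (c : K) : tay c (X - Polynomial.C c) = PowerSeries.X := by
  unfold tay
  rw [coe_eval₂RingHom, eval₂_sub, eval₂_X, eval₂_C]
  ring

theorem tay_const (c : K) (q : K[X]) : PowerSeries.coeff 0 (tay c q) = q.eval c := by
  have h : (PowerSeries.constantCoeff (R := K)).comp (tay c) = evalRingHom c := by
    apply Polynomial.ringHom_ext
    · intro a
      rw [RingHom.comp_apply]
      unfold tay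
      rw [coe_eval₂RingHom, eval₂_C, coe_evalRingHom, eval_C]
      exact PowerSeries.constantCoeff_C a
    · rw [RingHom.comp_apply]
      unfold tay
      rw [coe_eval₂RingHom, eval₂_X, coe_evalRingHom, eval_X, map_add, PowerSeries.constantCoeff_C,
        PowerSeries.constantCoeff_X, zero_add]
  have h2 := congrArg (fun f : K[X] →+* K => f q) h
  simp only [RingHom.comp_apply, coe_evalRingHom] at h2
  rw [PowerSeries.coeff_zero_eq_constantCoeff_apply]
  exact h2

theorem der_map (u : PowerSeries K) : PowerSeries.map φ (PowerSeries.derivative K u) =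
    PowerSeries.derivative L (PowerSeries.map φ u) := by
  ext n
  rw [PowerSeries.coeff_map, PowerSeries.coeff_derivative, PowerSeries.coeff_derivative,
    PowerSeries.coeff_map, map_mul, map_add, map_natCast, map_one]

theorem xi_map (D : Dat K g) (x : Fin (2 * g) → PowerSeries K) (a : Fin (2 * g)) :
    (D.map φ).xi (fun b => PowerSeries.map φ (x b)) a = PowerSeries.map φ (D.xi x a) := by
  have hadj : (D.map φ).Q.adjugate = (D.Q.adjugate).map (mapRingHom φ) := by
    have := (RingHom.map_adjugate (mapRingHom φ) D.Q)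
    rw [RingHom.mapMatrix_apply, RingHom.mapMatrix_apply] at this
    exact this.symm
  unfold Dat.xi
  rw [hadj, Matrix.mulVec, Matrix.mulVec, dotProduct, dotProduct, map_sum]
  refine Finset.sum_congr rfl fun b _ => ?_
  rw [map_mul, Matrix.map_apply, Matrix.map_apply, Matrix.map_apply, tay_map]
  rfl

/-- the equation -/
noncomputable def eqn (D : Dat K g) (x : Fin (2 * g) → PowerSeries K) (a : Fin (2 * g)) :
    PowerSeries K :=
  tay D.c D.W * PowerSeries.derivative K (x a) + ∑ b, tay D.c (D.M a b) * x b

theorem eqn_map (D : Dat K g) (x : Fin (2 * g) → PowerSeries K) (a : Fin (2 * g)) :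
    eqn (D.map φ) (fun b => PowerSeries.map φ (x b)) a = PowerSeries.map φ (eqn D x a) := by
  unfold eqn
  rw [map_add, map_mul, map_sum, tay_map, der_map, map_W]
  congr 1
  refine Finset.sum_congr rfl fun b _ => ?_
  rw [map_mul, tay_map]
  rfl

theorem map_inj : Function.Injective (PowerSeries.map φ) := by
  intro u v h
  ext n
  have := congrArg (PowerSeries.coeff n) h
  rw [PowerSeries.coeff_map, PowerSeries.coeff_map] at this
  exact φ.injective this

theorem hor_map (D : Dat K g) (x : Fin (2 * g) → PowerSeries K) :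
    (D.map φ).Hor (fun b => PowerSeries.map φ (x b)) ↔ D.Hor x := by
  constructor
  · intro h a
    have h1 := h a
    apply map_inj φ
    rw [map_zero]
    exact (eqn_map φ D x a).symm.trans h1
  · intro h a
    have h1 := h a
    refine (eqn_map φ D x a).trans ?_
    have h2 : eqn D x a = 0 := h1
    rw [h2, map_zero]

theorem vmv_map (x y : Fin (2 * g) → PowerSeries K) :
    Matrix.vecMulVec (fun b => PowerSeries.map φ (x b)) (fun b => PowerSeries.map φ (y b)) =
      (Matrix.vecMulVec x y).map (PowerSeries.map φ) := by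
  ext1 i j
  rw [Matrix.vecMulVec_apply, Matrix.map_apply, Matrix.vecMulVec_apply, map_mul]

/-- down -/
theorem down (D : Dat K g) (h : (D.map φ).Strong) : D.Strong := by
  intro x hx h0
  obtain ⟨h1, h2⟩ := h (fun b => PowerSeries.map φ (x b)) ((hor_map φ D x).2 hx) (by
    intro a
    rw [map_r, ← h0 a, ← PowerSeries.coeff_zero_eq_constantCoeff_apply, PowerSeries.coeff_map,
      PowerSeries.coeff_zero_eq_constantCoeff_apply])
  have hxi : (D.map φ).xi (fun b => PowerSeries.map φ (x b)) =
      fun a => PowerSeries.map φ (D.xi x a) := funext (xi_map φ D x)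
  rw [hxi] at h1 h2
  constructor
  · intro z hz
    have h3 := h1 (fun a => (z a).map φ) (by
      have h4 := congrArg (PowerSeries.map φ) hz
      rw [map_sum, map_zero] at h4
      rw [← h4]
      refine Finset.sum_congr rfl fun a _ => ?_
      rw [map_mul, tay_map]
      rfl)
    funext a
    have h4 := congrFun h3 a
    exact (Polynomial.map_eq_zero φ).1 h4
  · intro θ hθ
    obtain ⟨q, hq⟩ := h2 (θ.map (mapRingHom φ)) (by
      rw [vmv_map]
      have e1 : (θ.map (mapRingHom φ)).map (tay (D.map φ).c) =
          (θ.map (tay D.c)).map (PowerSeries.map φ) := by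
        ext1 i j
        rw [Matrix.map_apply, Matrix.map_apply, Matrix.map_apply, Matrix.map_apply, tay_map]
        rfl
      rw [e1, ← Matrix.map_mul, ← Matrix.map_mul, hθ])
    by_cases hne : Nonempty (Fin (2 * g))
    · obtain ⟨i0⟩ := hne
      refine ⟨θ i0 i0, ?_⟩
      ext1 i j
      have h3 := congrFun (congrFun hq i) j
      have h4 := congrFun (congrFun hq i0) i0
      rw [Matrix.map_apply] at h3 h4
      rw [Matrix.diagonal_apply] at h3 ⊢
      rw [Matrix.diagonal_apply_eq] at h4
      have hinj : Function.Injective (mapRingHom φ) := Polynomial.map_injective φ φ.injective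
      split_ifs with hij
      · rw [if_pos hij] at h3
        exact hinj (h3.trans h4.symm)
      · rw [if_neg hij] at h3
        exact hinj (h3.trans (map_zero _).symm)
    · refine ⟨0, ?_⟩
      ext1 i
      exact absurd ⟨i⟩ hne

end maps

section up

variable {K L : Type} [Field K] [Field L] [CharZero K] [CharZero L] (φ : K →+* L) {g : ℕ}

/-- the square of the residue -/
theorem sq_zero (D : Dat K g) (h : D.Ok) (i j : Fin (2 * g)) :
    ∑ l, (D.M i l).eval D.c * (D.M l j).eval D.c = 0 := by
  obtain ⟨o1, -, -, -, -, -, -, o4, -, -, -, o6⟩ := h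
  have hskew : ∑ l, D.e l * D.r l = 0 := by
    have e1 : ∑ l, D.e l * D.r l = ∑ l, ∑ m, D.e l * (D.Q l m).eval D.c * D.e m := by
      refine Finset.sum_congr rfl fun l _ => ?_
      unfold Dat.r
      rw [Finset.mul_sum]
      exact Finset.sum_congr rfl fun m _ => by ring
    have e2 : ∑ l, D.e l * D.r l = -∑ l, D.e l * D.r l := by
      conv_lhs => rw [e1, Finset.sum_comm]
      rw [e1, ← Finset.sum_neg_distrib]
      refine Finset.sum_congr rfl fun l _ => ?_
      rw [← Finset.sum_neg_distrib]
      refine Finset.sum_congr rfl fun m _ => ?_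
      have e3 : D.Q m l = -D.Q l m := by
        have := congrFun (congrFun o1 l) m
        rw [Matrix.transpose_apply, Matrix.neg_apply] at this
        exact this
      rw [e3, eval_neg]
      ring
    have e3 : (2 : K) * ∑ l, D.e l * D.r l = 0 := by linear_combination e2
    exact (mul_eq_zero.1 e3).resolve_left two_ne_zero
  have e : D.μ * D.μ * ∑ l, (D.M i l).eval D.c * (D.M l j).eval D.c = 0 := by
    calc D.μ * D.μ * ∑ l, (D.M i l).eval D.c * (D.M l j).eval D.c
        = ∑ l, (D.μ * (D.M i l).eval D.c) * (D.μ * (D.M l j).eval D.c) := by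
          rw [Finset.mul_sum]
          exact Finset.sum_congr rfl fun l _ => by ring
      _ = ∑ l, (D.κ * D.r i * D.e l) * (D.κ * D.r l * D.e j) :=
          Finset.sum_congr rfl fun l _ => by rw [o6, o6]
      _ = D.κ * D.κ * D.r i * D.e j * ∑ l, D.e l * D.r l := by
          rw [Finset.mul_sum]
          exact Finset.sum_congr rfl fun l _ => by ring
      _ = 0 := by rw [hskew, mul_zero]
  exact (mul_eq_zero.1 e).resolve_left (mul_ne_zero o4 o4)

/-- the coefficients of the solutions are in the small field -/
theorem coef_mem (D : Dat K g) (h : D.Ok) {x : Fin (2 * g) → PowerSeries L}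
    (hx : (D.map φ).Hor x) (h0 : ∀ a, PowerSeries.constantCoeff (x a) = (D.map φ).r a) :
    ∀ m a, PowerSeries.coeff m (x a) ∈ φ.fieldRange := by
  have hin : ∀ y : K, φ y ∈ φ.fieldRange := fun y => ⟨y, rfl⟩
  intro m
  induction m using Nat.strong_induction_on with
  | _ m ih =>
  rcases Nat.eq_zero_or_pos m with hm | hm
  · subst hm
    intro a
    rw [PowerSeries.coeff_zero_eq_constantCoeff_apply, h0, map_r]
    exact hin _
  · have hw : D.w.eval D.c ≠ 0 := by
      obtain ⟨-, -, -, -, -, -, o3, -⟩ := h
      exact o3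
    have htay : ∀ (q : K[X]) (n : ℕ), PowerSeries.coeff n (tay (D.map φ).c (q.map φ)) ∈
        φ.fieldRange := by
      intro q n
      have : tay (D.map φ).c (q.map φ) = PowerSeries.map φ (tay D.c q) := (tay_map φ D.c q).symm
      rw [this, PowerSeries.coeff_map]
      exact hin _
    obtain ⟨n, rfl⟩ : ∃ n, m = n + 1 := ⟨m - 1, by omega⟩
    set W0 : L := φ (D.w.eval D.c) with hW0
    set N : Fin (2 * g) → Fin (2 * g) → L := fun a b => φ ((D.M a b).eval D.c) with hN
    -- the first part
    have p1 : ∀ a, ∃ ρ ∈ φ.fieldRange, PowerSeries.coeff (n + 1)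
        (tay (D.map φ).c (D.map φ).W * PowerSeries.derivative L (x a)) =
        ((n : L) + 1) * W0 * PowerSeries.coeff (n + 1) (x a) + ρ := by
      intro a
      have e1 : tay (D.map φ).c (D.map φ).W = PowerSeries.X * tay (D.map φ).c (D.w.map φ) := by
        show tay (D.map φ).c ((X - Polynomial.C (D.map φ).c) * (D.map φ).w) = _
        rw [map_mul, tay_lin]
        rfl
      rw [e1, mul_assoc, PowerSeries.coeff_succ_X_mul, PowerSeries.coeff_mul,
        Finset.Nat.sum_antidiagonal_eq_sum_range_succ_mk, Finset.sum_range_succ']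
      refine ⟨∑ k ∈ Finset.range n, PowerSeries.coeff (k + 1) (tay (D.map φ).c (D.w.map φ)) *
        PowerSeries.coeff (n - (k + 1)) (PowerSeries.derivative L (x a)), ?_, ?_⟩
      · refine sum_mem fun k hk => mul_mem (htay _ _) ?_
        rw [Finset.mem_range] at hk
        rw [PowerSeries.coeff_derivative]
        refine mul_mem (ih _ (by omega) a) ?_
        exact add_mem (natCast_mem _ _) (one_mem _)
      · have e2 : PowerSeries.coeff 0 (tay (D.map φ).c (D.w.map φ)) = W0 := by
          rw [tay_const]
          show (D.w.map φ).eval (φ D.c) = _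
          rw [Polynomial.eval_map_apply]
        simp only [Nat.sub_zero]
        rw [e2, PowerSeries.coeff_derivative]
        ring
    -- the second part
    have p2 : ∀ a, ∃ ρ ∈ φ.fieldRange, PowerSeries.coeff (n + 1)
        (∑ b, tay (D.map φ).c ((D.map φ).M a b) * x b) =
        ∑ b, N a b * PowerSeries.coeff (n + 1) (x b) + ρ := by
      intro a
      have e1 : ∀ b, ∃ ρ ∈ φ.fieldRange, PowerSeries.coeff (n + 1)
          (tay (D.map φ).c ((D.map φ).M a b) * x b) =
          N a b * PowerSeries.coeff (n + 1) (x b) + ρ := by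
        intro b
        rw [PowerSeries.coeff_mul, Finset.Nat.sum_antidiagonal_eq_sum_range_succ_mk,
          Finset.sum_range_succ']
        refine ⟨∑ k ∈ Finset.range (n + 1),
          PowerSeries.coeff (k + 1) (tay (D.map φ).c ((D.map φ).M a b)) *
            PowerSeries.coeff (n + 1 - (k + 1)) (x b), ?_, ?_⟩
        · refine sum_mem fun k hk => mul_mem (htay _ _) (ih _ ?_ b)
          rw [Finset.mem_range] at hk
          omega
        · have e2 : PowerSeries.coeff 0 (tay (D.map φ).c ((D.map φ).M a b)) = N a b := by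
            rw [tay_const]
            show ((D.M a b).map φ).eval (φ D.c) = _
            rw [Polynomial.eval_map_apply]
          simp only [Nat.sub_zero]
          rw [e2]
          ring
      choose ρ hρ1 hρ2 using e1
      refine ⟨∑ b, ρ b, sum_mem fun b _ => hρ1 b, ?_⟩
      rw [map_sum, ← Finset.sum_add_distrib]
      exact Finset.sum_congr rfl fun b _ => hρ2 b
    choose ρ1 hρ1 eρ1 using p1
    choose ρ2 hρ2 eρ2 using p2
    set v : Fin (2 * g) → L := fun a => PowerSeries.coeff (n + 1) (x a) with hv
    have key : ∀ a, ((n : L) + 1) * W0 * v a + ∑ b, N a b * v b = -(ρ1 a + ρ2 a) := by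
      intro a
      have h1 := congrArg (PowerSeries.coeff (n + 1)) (hx a)
      rw [map_add, eρ1, eρ2, map_zero] at h1
      linear_combination h1
    have hNN : ∀ a b, ∑ l, N a l * N l b = 0 := by
      intro a b
      have h1 := congrArg φ (sq_zero D h a b)
      rw [map_sum, map_zero] at h1
      rw [← h1]
      exact Finset.sum_congr rfl fun l _ => (map_mul _ _ _).symm
    intro a
    show v a ∈ _
    set s : L := ((n : L) + 1) * W0 with hs
    have hs0 : s ≠ 0 := by
      refine mul_ne_zero ?_ ((_root_.map_ne_zero φ).2 hw)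
      exact_mod_cast Nat.succ_ne_zero n
    have hfin : s * s * v a = -(s * (ρ1 a + ρ2 a)) + ∑ l, N a l * (ρ1 l + ρ2 l) := by
      have h1 : ∑ l, N a l * (s * v l + ∑ b, N l b * v b) = -∑ l, N a l * (ρ1 l + ρ2 l) := by
        rw [← Finset.sum_neg_distrib]
        refine Finset.sum_congr rfl fun l _ => ?_
        rw [key l]
        ring
      have h2 : ∑ l, N a l * (s * v l + ∑ b, N l b * v b) = s * ∑ l, N a l * v l := by
        have h3 : ∑ l, N a l * ∑ b, N l b * v b = 0 := by
          calc ∑ l, N a l * ∑ b, N l b * v b = ∑ l, ∑ b, N a l * N l b * v b := by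
                refine Finset.sum_congr rfl fun l _ => ?_
                rw [Finset.mul_sum]
                exact Finset.sum_congr rfl fun b _ => by ring
            _ = ∑ b, ∑ l, N a l * N l b * v b := Finset.sum_comm
            _ = ∑ b, (∑ l, N a l * N l b) * v b :=
                Finset.sum_congr rfl fun b _ => (Finset.sum_mul _ _ _).symm
            _ = 0 := by
                refine Finset.sum_eq_zero fun b _ => ?_
                rw [hNN, zero_mul]
        calc ∑ l, N a l * (s * v l + ∑ b, N l b * v b)
            = ∑ l, (s * (N a l * v l) + N a l * ∑ b, N l b * v b) :=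
              Finset.sum_congr rfl fun l _ => by ring
          _ = s * ∑ l, N a l * v l + ∑ l, N a l * ∑ b, N l b * v b := by
              rw [Finset.sum_add_distrib, Finset.mul_sum]
          _ = _ := by rw [h3, add_zero]
      have h4 := key a
      rw [h2] at h1
      linear_combination s * h4 - h1
    have hsF : s ∈ φ.fieldRange := by
      refine mul_mem (add_mem (natCast_mem _ _) (one_mem _)) (hin _)
    have e : v a = (s * s)⁻¹ * (-(s * (ρ1 a + ρ2 a)) + ∑ l, N a l * (ρ1 l + ρ2 l)) := by
      rw [← hfin, ← mul_assoc, inv_mul_cancel₀ (mul_ne_zero hs0 hs0), one_mul]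
    rw [e]
    refine mul_mem (inv_mem (mul_mem hsF hsF)) (add_mem (neg_mem (mul_mem hsF
      (add_mem (hρ1 a) (hρ2 a)))) (sum_mem fun l _ => mul_mem (hin _) (add_mem (hρ1 l) (hρ2 l))))

end up

section lam

variable {K L : Type} [Field K] [Field L] [Algebra K L] {g : ℕ}

/-- coefficientwise functionals -/
noncomputable def lamP (l : L →ₗ[K] K) (q : L[X]) : K[X] := q.sum fun i a => monomial i (l a)

theorem coeff_lamP (l : L →ₗ[K] K) (q : L[X]) (i : ℕ) : (lamP l q).coeff i = l (q.coeff i) := by
  unfold lamP
  rw [Polynomial.sum_def, finsetSum_coeff]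
  simp only [coeff_monomial, Finset.sum_ite_eq']
  split_ifs with h
  · rfl
  · rw [notMem_support_iff.1 h, map_zero]

/-- coefficientwise functionals -/
noncomputable def lamS (l : L →ₗ[K] K) (u : PowerSeries L) : PowerSeries K :=
  PowerSeries.mk fun i => l (PowerSeries.coeff i u)

theorem coeff_lamS (l : L →ₗ[K] K) (u : PowerSeries L) (i : ℕ) :
    PowerSeries.coeff i (lamS l u) = l (PowerSeries.coeff i u) := by
  unfold lamS
  rw [PowerSeries.coeff_mk]

theorem lamS_zero (l : L →ₗ[K] K) : lamS l 0 = 0 := by
  ext n
  rw [coeff_lamS, map_zero, map_zero, map_zero]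

theorem lamS_sum (l : L →ₗ[K] K) {J : Type} (s : Finset J) (u : J → PowerSeries L) :
    lamS l (∑ j ∈ s, u j) = ∑ j ∈ s, lamS l (u j) := by
  ext n
  rw [coeff_lamS, map_sum, map_sum, map_sum]
  exact Finset.sum_congr rfl fun j _ => (coeff_lamS l _ _).symm

theorem lamS_mul (l : L →ₗ[K] K) (u : PowerSeries L) (v : PowerSeries K) :
    lamS l (u * PowerSeries.map (algebraMap K L) v) = lamS l u * v := by
  ext n
  rw [coeff_lamS, PowerSeries.coeff_mul, PowerSeries.coeff_mul, map_sum]
  refine Finset.sum_congr rfl fun p _ => ?_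
  rw [PowerSeries.coeff_map, coeff_lamS, mul_comm, ← Algebra.smul_def, map_smul, smul_eq_mul,
    mul_comm]

theorem lamS_tay (l : L →ₗ[K] K) (c : K) (q : L[X]) :
    lamS l (tay (algebraMap K L c) q) = tay c (lamP l q) := by
  have hC : ∀ a : L, lamS l (PowerSeries.C a) = PowerSeries.C (l a) := by
    intro a
    ext n
    rw [coeff_lamS, PowerSeries.coeff_C, PowerSeries.coeff_C]
    split_ifs
    · rfl
    · rw [map_zero]
  have e1 : q = ∑ i ∈ q.support, Polynomial.C (q.coeff i) * X ^ i := q.as_sum_support_C_mul_X_pow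
  have e2 : lamP l q = ∑ i ∈ q.support, Polynomial.C (l (q.coeff i)) * X ^ i := by
    unfold lamP
    rw [Polynomial.sum_def]
    exact Finset.sum_congr rfl fun i _ => (C_mul_X_pow_eq_monomial).symm
  rw [e2]
  conv_lhs => rw [e1]
  rw [map_sum, map_sum, lamS_sum]
  refine Finset.sum_congr rfl fun i _ => ?_
  have e3 : tay (algebraMap K L c) (Polynomial.C (q.coeff i) * X ^ i) =
      PowerSeries.C (q.coeff i) *
        PowerSeries.map (algebraMap K L) ((PowerSeries.X + PowerSeries.C c) ^ i) := by
    rw [map_mul, map_pow, map_pow, map_add, PowerSeries.map_X, PowerSeries.map_C]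
    unfold tay
    rw [coe_eval₂RingHom, eval₂_C, eval₂_X]
  have e4 : tay c (Polynomial.C (l (q.coeff i)) * X ^ i) =
      PowerSeries.C (l (q.coeff i)) * (PowerSeries.X + PowerSeries.C c) ^ i := by
    rw [map_mul, map_pow]
    unfold tay
    rw [coe_eval₂RingHom, eval₂_C, eval₂_X]
  rw [e3, e4, lamS_mul, hC]

theorem eq_zero_of (q : L[X]) (h : ∀ l : L →ₗ[K] K, lamP l q = 0) : q = 0 := by
  ext n
  rw [coeff_zero]
  refine (Module.forall_dual_apply_eq_zero_iff K _).1 fun l => ?_
  have := congrArg (fun p : K[X] => p.coeff n) (h l)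
  simp only [coeff_lamP, coeff_zero] at this
  exact this

/-- up -/
theorem up [CharZero K] [CharZero L] (D : Dat K g) (hOk : D.Ok) (h : D.Strong) :
    (D.map (algebraMap K L)).Strong := by
  intro x' hx' h0'
  have hmem := coef_mem (algebraMap K L) D hOk hx' h0'
  choose y hy using hmem
  obtain ⟨x, hx⟩ : ∃ x : Fin (2 * g) → PowerSeries K,
      x' = fun b => PowerSeries.map (algebraMap K L) (x b) := by
    refine ⟨fun a => PowerSeries.mk fun m => y m a, ?_⟩
    funext a
    ext m
    rw [PowerSeries.coeff_map, PowerSeries.coeff_mk]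
    exact (hy m a).symm
  subst hx
  have hxH : D.Hor x := (hor_map (algebraMap K L) D x).1 hx'
  have hx0 : ∀ a, PowerSeries.constantCoeff (x a) = D.r a := by
    intro a
    apply (algebraMap K L).injective
    have h1 := h0' a
    rw [map_r, ← PowerSeries.coeff_zero_eq_constantCoeff_apply, PowerSeries.coeff_map,
      PowerSeries.coeff_zero_eq_constantCoeff_apply] at h1
    exact h1
  obtain ⟨h1, h2⟩ := h x hxH hx0
  have hxi : (D.map (algebraMap K L)).xi (fun b => PowerSeries.map (algebraMap K L) (x b)) =
      fun a => PowerSeries.map (algebraMap K L) (D.xi x a) := funext (xi_map _ D x)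
  rw [hxi]
  constructor
  · intro z hz
    funext a
    refine eq_zero_of (K := K) (z a) fun l => ?_
    have h3 := h1 (fun a => lamP l (z a)) (by
      have h4 := congrArg (lamS l) hz
      rw [lamS_sum, lamS_zero] at h4
      rw [← h4]
      refine Finset.sum_congr rfl fun b _ => ?_
      rw [lamS_mul]
      congr 1
      exact (lamS_tay l D.c (z b)).symm)
    exact congrFun h3 a
  · intro θ hθ
    have key : ∀ l : L →ₗ[K] K, ∃ q : K[X], (Matrix.of fun i j => lamP l (θ i j)) =
        Matrix.diagonal fun _ => q := by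
      intro l
      refine h2 _ ?_
      ext1 i j
      have h3 := congrArg (lamS l) (congrFun (congrFun hθ i) j)
      rw [Matrix.mul_apply, Matrix.mul_apply, lamS_sum, lamS_sum] at h3
      rw [Matrix.mul_apply, Matrix.mul_apply]
      refine Eq.trans (Finset.sum_congr rfl fun b _ => ?_) (h3.trans
        (Finset.sum_congr rfl fun b _ => ?_))
      · rw [Matrix.map_apply, Matrix.map_apply, Matrix.vecMulVec_apply, Matrix.vecMulVec_apply,
          ← map_mul, lamS_mul, Matrix.of_apply]
        congr 1
        exact (lamS_tay l D.c (θ i b)).symm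
      · rw [Matrix.map_apply, Matrix.map_apply, Matrix.vecMulVec_apply, Matrix.vecMulVec_apply,
          ← map_mul, mul_comm, lamS_mul, Matrix.of_apply, mul_comm]
        congr 1
        exact lamS_tay l D.c (θ b j)
    by_cases hne : Nonempty (Fin (2 * g))
    · obtain ⟨i0⟩ := hne
      refine ⟨θ i0 i0, ?_⟩
      ext1 i j
      rw [Matrix.diagonal_apply]
      split_ifs with hij
      · subst hij
        rw [← sub_eq_zero]
        ext n
        rw [coeff_sub, coeff_zero]
        refine (Module.forall_dual_apply_eq_zero_iff K _).1 fun l => ?_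
        obtain ⟨q, hq⟩ := key l
        have e1 := congrFun (congrFun hq i) i
        have e2 := congrFun (congrFun hq i0) i0
        rw [Matrix.of_apply, Matrix.diagonal_apply_eq] at e1 e2
        have e3 := congrArg (fun p : K[X] => p.coeff n) (e1.trans e2.symm)
        simp only [coeff_lamP] at e3
        rw [map_sub, e3, sub_self]
      · refine eq_zero_of (K := K) _ fun l => ?_
        obtain ⟨q, hq⟩ := key l
        have e1 := congrFun (congrFun hq i) j
        rw [Matrix.of_apply, Matrix.diagonal_apply_ne _ hij] at e1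
        exact e1
    · refine ⟨0, ?_⟩
      ext1 i
      exact absurd ⟨i⟩ hne

end lam

/-- **W3.** -/
theorem w_tr : W_Tr := by
  intro A _ _ g D hD k k' _ _ _ _ ψ ψ' hψ hψ' h
  let K := FractionRing A
  let φ : K →+* k := IsFractionRing.lift hψ
  let φ' : K →+* k' := IsFractionRing.lift hψ'
  have hK : CharZero K := φ.charZero
  have e1 : ψ = φ.comp (algebraMap A K) := by
    apply RingHom.ext
    intro a
    rw [RingHom.comp_apply]
    exact (IsFractionRing.lift_algebraMap hψ a).symm
  have e2 : ψ' = φ'.comp (algebraMap A K) := by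
    apply RingHom.ext
    intro a
    rw [RingHom.comp_apply]
    exact (IsFractionRing.lift_algebraMap hψ' a).symm
  rw [e1, ← Pool.Agent.Helper62.BW.map_map] at h
  rw [e2, ← Pool.Agent.Helper62.BW.map_map]
  have h1 := down φ _ h
  letI : Algebra K k' := φ'.toAlgebra
  exact up (K := K) (L := k') _ (ok_inj D hD (algebraMap A K) (IsFractionRing.injective A K)) h1

end Pool.Agent.Helper90.BW
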